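import Mathlib
import Pool.Agent.W262.RK.Stm
import Pool.Agent.Helper256.KM.Mertens
import Pool.Agent.H304R3.MO1

/-!
# Upper bound for sums of real characters over primes
-/

namespace Pool.Agent.W586.RK.UB

open Finset Filter Topology

lemma abel_aux (a f : ℕ → ℝ) (M : ℕ) (B : ℝ) (ha : ∀ n, M ≤ n → a (n + 1) ≤ a n)
    (hf : ∀ N, M ≤ N → |∑ n ∈ Ico M N, f n| ≤ B) (N : ℕ) (hN : M ≤ N) :
    |∑ n ∈ Ico M N, a n * f n - a N * ∑ n ∈ Ico M N, f n| ≤ B * (a M - a N) := by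
  induction N, hN using Nat.le_induction with
  | base => simp
  | succ N hN ih =>
    have h1 := Finset.sum_Ico_succ_top hN (fun n => a n * f n)
    have h2 := Finset.sum_Ico_succ_top hN f
    have h3 := hf (N + 1) (by omega)
    have h4 : ∑ n ∈ Ico M (N + 1), a n * f n - a (N + 1) * ∑ n ∈ Ico M (N + 1), f n =
        (∑ n ∈ Ico M N, a n * f n - a N * ∑ n ∈ Ico M N, f n) +
          (a N - a (N + 1)) * ∑ n ∈ Ico M (N + 1), f n := by
      rw [h1, h2]; ring
    rw [h4]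
    have h5 : 0 ≤ a N - a (N + 1) := by linarith [ha N hN]
    have h6 : |(a N - a (N + 1)) * ∑ n ∈ Ico M (N + 1), f n| ≤ (a N - a (N + 1)) * B := by
      rw [abs_mul, abs_of_nonneg h5]
      exact mul_le_mul_of_nonneg_left h3 h5
    calc _ ≤ _ := abs_add_le _ _
      _ ≤ B * (a M - a N) + (a N - a (N + 1)) * B := add_le_add ih h6
      _ = _ := by ring

lemma abel_le (a f : ℕ → ℝ) (M : ℕ) (B : ℝ) (ha : ∀ n, M ≤ n → a (n + 1) ≤ a n)
    (ha0 : ∀ n, 0 ≤ a n)
    (hf : ∀ N, M ≤ N → |∑ n ∈ Ico M N, f n| ≤ B) (N : ℕ) (hN : M ≤ N) :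
    ∑ n ∈ Ico M N, a n * f n ≤ B * a M := by
  have h1 := abel_aux a f M B ha hf N hN
  have h2 := hf N hN
  have h3 : |a N * ∑ n ∈ Ico M N, f n| ≤ a N * B := by
    rw [abs_mul, abs_of_nonneg (ha0 N)]
    exact mul_le_mul_of_nonneg_left h2 (ha0 N)
  have h4 := (abs_le.1 h1).2
  have h5 := (abs_le.1 h3).2
  linarith

lemma partial_sum {f : ℕ → ℝ} {q : ℕ} (hq : 1 ≤ q) (hf1 : ∀ n, |f n| ≤ 1)
    (hper : Function.Periodic f q) (hz : ∑ n ∈ range q, f n = 0) (x : ℕ) :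
    |∑ n ∈ range x, f n| ≤ q := by
  induction x using Nat.strong_induction_on with
  | _ x ih =>
    rcases lt_or_ge x q with hx | hx
    · calc |∑ n ∈ range x, f n| ≤ ∑ n ∈ range x, |f n| := abs_sum_le_sum_abs _ _
        _ ≤ ∑ n ∈ range x, (1 : ℝ) := sum_le_sum fun n _ => hf1 n
        _ ≤ q := by simp; exact_mod_cast hx.le
    · obtain ⟨y, rfl⟩ : ∃ y, x = q + y := ⟨x - q, by omega⟩
      rw [sum_range_add, hz, zero_add]
      have : ∀ i : ℕ, f (q + i) = f i := by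
        intro i
        rw [add_comm]
        exact hper i
      simp_rw [this]
      exact ih y (by omega)

lemma L_bound {f : ℕ → ℝ} {q : ℕ} (hq : 1 ≤ q) (hf1 : ∀ n, |f n| ≤ 1)
    (hper : Function.Periodic f q) (hz : ∑ n ∈ range q, f n = 0) (s : ℝ) (hs : 0 < s)
    (hsum : Summable (fun n : ℕ => (n : ℝ) ^ (-(1 + s)) * f n)) :
    ∑' n : ℕ, (n : ℝ) ^ (-(1 + s)) * f n ≤ Real.log q + 2 := by
  refine le_of_tendsto hsum.hasSum.tendsto_sum_nat ?_
  filter_upwards [eventually_ge_atTop q] with N hN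
  rw [range_eq_Ico, ← Finset.sum_Ico_consecutive _ (Nat.zero_le q) hN]
  have hq0 : (0 : ℝ) < q := by exact_mod_cast hq
  have hnn : ∀ n : ℕ, 0 ≤ (n : ℝ) ^ (-(1 + s)) := fun n => Real.rpow_nonneg (Nat.cast_nonneg _) _
  have h1 : ∑ n ∈ Ico 0 q, (n : ℝ) ^ (-(1 + s)) * f n ≤ 1 + Real.log q := by
    have h2 : ∑ n ∈ Ico 0 q, (n : ℝ) ^ (-(1 + s)) * f n ≤ ∑ n ∈ range q, (1 / ((n : ℝ) + 1)) := by
      have h3 : ∀ n ∈ Ico 0 q, (n : ℝ) ^ (-(1 + s)) * f n ≤ (n : ℝ) ^ (-(1 + s)) := by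
        intro n _
        have := mul_le_mul_of_nonneg_left ((abs_le.1 (hf1 n)).2) (hnn n)
        linarith
      refine (sum_le_sum h3).trans ?_
      rw [← range_eq_Ico]
      obtain ⟨m, rfl⟩ : ∃ m, q = m + 1 := ⟨q - 1, by omega⟩
      rw [Finset.sum_range_succ' (fun n : ℕ => (n : ℝ) ^ (-(1 + s)))]
      rw [Finset.sum_range_succ (fun n : ℕ => (1 / ((n : ℝ) + 1)))]
      have h0 : ((0 : ℕ) : ℝ) ^ (-(1 + s)) = 0 := by
        rw [Nat.cast_zero]
        exact Real.zero_rpow (by linarith)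
      rw [h0, add_zero]
      have h5 : ∑ k ∈ range m, (((k + 1 : ℕ) : ℝ)) ^ (-(1 + s)) ≤ ∑ k ∈ range m, (1 / ((k : ℝ) + 1)) := by
        refine sum_le_sum fun k _ => ?_
        have h6 : (1 : ℝ) ≤ ((k + 1 : ℕ) : ℝ) := by push_cast; linarith [(Nat.cast_nonneg k : (0 : ℝ) ≤ k)]
        calc (((k + 1 : ℕ) : ℝ)) ^ (-(1 + s)) ≤ (((k + 1 : ℕ) : ℝ)) ^ (-1 : ℝ) :=
              Real.rpow_le_rpow_of_exponent_le h6 (by linarith)
          _ = 1 / ((k : ℝ) + 1) := by
              rw [Real.rpow_neg_one]; push_cast; rw [one_div]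
      have h7 : 0 ≤ 1 / ((m : ℝ) + 1) := by positivity
      linarith
    have h8 := harmonic_le_one_add_log q
    have h9 : ((harmonic q : ℚ) : ℝ) = ∑ n ∈ range q, (1 / ((n : ℝ) + 1)) := by
      unfold harmonic
      push_cast
      refine sum_congr rfl fun n _ => ?_
      rw [one_div]
    rw [h9] at h8
    linarith
  have h10 : ∑ n ∈ Ico q N, (n : ℝ) ^ (-(1 + s)) * f n ≤ q * (q : ℝ) ^ (-(1 + s)) := by
    refine abel_le (fun n => (n : ℝ) ^ (-(1 + s))) f q q ?_ hnn ?_ N hN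
    · intro n hn
      have h11 : (0 : ℝ) < n := by exact_mod_cast (by omega : 0 < n)
      exact Real.rpow_le_rpow_of_nonpos h11 (by push_cast; linarith) (by linarith)
    · intro M hM
      have h12 : ∑ n ∈ Ico q M, f n = ∑ n ∈ range M, f n := by
        rw [range_eq_Ico, ← Finset.sum_Ico_consecutive _ (Nat.zero_le q) hM, ← range_eq_Ico, hz,
          zero_add]
      rw [h12]
      exact partial_sum hq hf1 hper hz M
  have h13 : (q : ℝ) * (q : ℝ) ^ (-(1 + s)) ≤ 1 := by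
    have h14 : (q : ℝ) ^ (-(1 + s)) ≤ (q : ℝ) ^ (-1 : ℝ) :=
      Real.rpow_le_rpow_of_exponent_le (by exact_mod_cast hq) (by linarith)
    rw [Real.rpow_neg_one] at h14
    calc (q : ℝ) * (q : ℝ) ^ (-(1 + s)) ≤ q * (q : ℝ)⁻¹ := mul_le_mul_of_nonneg_left h14 hq0.le
      _ = 1 := mul_inv_cancel₀ hq0.ne'
  linarith

lemma exp_le_inv {u : ℝ} (hu : u < 1) : Real.exp u ≤ (1 - u)⁻¹ := by
  have h1 := Real.add_one_le_exp (-u)
  have h2 : 0 < 1 - u := by linarith
  rw [le_inv_comm₀ (Real.exp_pos u) h2, ← Real.exp_neg]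
  linarith

lemma euler_lower (f : ℕ →*₀ ℝ) (hf1 : ∀ n, |f n| ≤ 1) (s : ℝ) (hs : 0 < s) (hs1 : s ≤ 1)
    (T : Finset Nat.Primes) :
    Summable (fun n : ℕ => (n : ℝ) ^ (-(1 + s)) * f n) ∧
    Real.exp (∑ p ∈ T, (1 + f (p : ℕ)) * ((p : ℕ) : ℝ) ^ (-(1 + s))) ≤
      2 / s * ∑' n : ℕ, (n : ℝ) ^ (-(1 + s)) * f n := by
  obtain ⟨hsum, hle⟩ := Pool.Agent.H304R3.MO.zeta_bound s hs hs1
  let g : ℕ →*₀ ℝ :=
    { toFun := fun n => (n : ℝ) ^ (-(1 + s))
      map_zero' := by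
        rw [Nat.cast_zero]
        exact Real.zero_rpow (by linarith)
      map_one' := by simp
      map_mul' := fun a b => by
        rw [Nat.cast_mul, Real.mul_rpow (Nat.cast_nonneg _) (Nat.cast_nonneg _)] }
  have hg : ∀ n : ℕ, g n = (n : ℝ) ^ (-(1 + s)) := fun n => rfl
  let h : ℕ →*₀ ℝ :=
    { toFun := fun n => g n * f n
      map_zero' := by simp
      map_one' := by simp
      map_mul' := fun a b => by
        rw [map_mul, map_mul]; ring }
  have hh : ∀ n : ℕ, h n = (n : ℝ) ^ (-(1 + s)) * f n := fun n => rfl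
  have hgn : ∀ n, 0 ≤ g n := fun n => by rw [hg]; exact Real.rpow_nonneg (Nat.cast_nonneg _) _
  have hnorm : Summable (fun n => ‖g n‖) := by
    refine hsum.congr fun n => ?_
    rw [Real.norm_of_nonneg (hgn n), hg]
  have hhg : ∀ n, |h n| ≤ g n := by
    intro n
    rw [hh, ← hg, abs_mul, abs_of_nonneg (hgn n)]
    have := mul_le_mul_of_nonneg_left (hf1 n) (hgn n)
    linarith
  have hnorm' : Summable (fun n => ‖h n‖) := by
    refine Summable.of_nonneg_of_le (fun n => norm_nonneg _) (fun n => hhg n) (f := fun n => g n) ?_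
    exact hsum
  have hp1 := EulerProduct.eulerProduct_completely_multiplicative_hasProd (f := g) hnorm
  have hp2 := EulerProduct.eulerProduct_completely_multiplicative_hasProd (f := h) hnorm'
  have hp := hp1.mul hp2
  have hlt : ∀ p : Nat.Primes, g p < 1 := by
    intro p
    have h2 : (1 : ℝ) < ((p : ℕ) : ℝ) := by exact_mod_cast p.2.one_lt
    rw [hg]
    exact Real.rpow_lt_one_of_one_lt_of_neg h2 (by linarith)
  have hlt' : ∀ p : Nat.Primes, h p < 1 := fun p =>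
    lt_of_le_of_lt ((le_abs_self _).trans (hhg p)) (hlt p)
  have hfac : ∀ p : Nat.Primes, Real.exp ((1 + f (p : ℕ)) * ((p : ℕ) : ℝ) ^ (-(1 + s))) ≤
      (1 - g p)⁻¹ * (1 - h p)⁻¹ := by
    intro p
    have e : (1 + f (p : ℕ)) * ((p : ℕ) : ℝ) ^ (-(1 + s)) = g p + h p := by
      rw [hg, hh]; ring
    rw [e, Real.exp_add]
    exact mul_le_mul (exp_le_inv (hlt p)) (exp_le_inv (hlt' p)) (Real.exp_pos _).le
      (inv_nonneg.2 (by linarith [hlt p]))
  have hge1 : ∀ p : Nat.Primes, 1 ≤ (1 - g p)⁻¹ * (1 - h p)⁻¹ := by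
    intro p
    refine le_trans (Real.one_le_exp ?_) (hfac p)
    have := (abs_le.1 (hf1 p)).1
    exact mul_nonneg (by linarith) (Real.rpow_nonneg (Nat.cast_nonneg _) _)
  have hge : ∏ p ∈ T, (1 - g p)⁻¹ * (1 - h p)⁻¹ ≤ (∑' n, g n) * ∑' n, h n := by
    refine ge_of_tendsto hp ?_
    filter_upwards [eventually_ge_atTop T] with T' hT'
    have hone : 1 ≤ ∏ p ∈ T' \ T, (1 - g p)⁻¹ * (1 - h p)⁻¹ := by
      have h := Finset.prod_le_prod (s := T' \ T) (f := fun _ : Nat.Primes => (1 : ℝ))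
        (g := fun p : Nat.Primes => (1 - g p)⁻¹ * (1 - h p)⁻¹) (fun _ _ => zero_le_one)
        (fun p _ => hge1 p)
      simpa using h
    have hT0 : 0 < ∏ p ∈ T, (1 - g p)⁻¹ * (1 - h p)⁻¹ :=
      Finset.prod_pos fun p _ => lt_of_lt_of_le one_pos (hge1 p)
    rw [← Finset.prod_sdiff hT']
    nlinarith
  have hexp : Real.exp (∑ p ∈ T, (1 + f (p : ℕ)) * ((p : ℕ) : ℝ) ^ (-(1 + s))) ≤
      (∑' n, g n) * ∑' n, h n := by
    rw [Real.exp_sum]
    exact (Finset.prod_le_prod (fun p _ => (Real.exp_pos _).le) (fun p _ => hfac p)).trans hge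
  have hG0 : 0 ≤ ∑' n, g n := tsum_nonneg hgn
  have hH0 : 0 < ∑' n, h n := by
    have h1 := (Real.exp_pos _).trans_le hexp
    by_contra hc
    push Not at hc
    nlinarith
  refine ⟨hnorm'.of_norm, hexp.trans ?_⟩
  exact mul_le_mul_of_nonneg_right hle hH0.le

open Pool.Agent.W262.RK

lemma Jr_abs (a : ℤ) (n : ℕ) : |Jr a n| ≤ 1 := by
  unfold Jr
  rcases jacobiSym.trichotomy a n with h | h | h <;> rw [h] <;> simp

lemma x4_abs (e : Bool) (n : ℕ) : |x4 e n| ≤ 1 := by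
  unfold x4
  split_ifs
  · rcases ZMod.isQuadratic_χ₄ (n : ZMod 4) with h | h | h <;> rw [h] <;> simp
  · simp

/-- the character -/
noncomputable def ff (κ : ℤ) (r : ℕ) (e : Bool) : ℕ →*₀ ℝ where
  toFun n := if Odd n then Jr n r * Jr κ n * x4 e n else 0
  map_zero' := by simp
  map_one' := by simp [Jr, x4]
  map_mul' m n := by
    by_cases hm : Odd m
    · by_cases hn : Odd n
      · rw [if_pos (hm.mul hn), if_pos hm, if_pos hn]
        have hm0 : m ≠ 0 := by rintro rfl; simp at hm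
        have hn0 : n ≠ 0 := by rintro rfl; simp at hn
        have h1 : Jr ((m * n : ℕ) : ℤ) r = Jr m r * Jr n r := by
          unfold Jr
          rw [Nat.cast_mul, jacobiSym.mul_left, Int.cast_mul]
        have h2 : Jr κ (m * n) = Jr κ m * Jr κ n := by
          unfold Jr
          rw [jacobiSym.mul_right' _ hm0 hn0, Int.cast_mul]
        have h3 : x4 e (m * n) = x4 e m * x4 e n := by
          unfold x4
          split_ifs
          · rw [Nat.cast_mul, map_mul, Int.cast_mul]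
          · simp
        rw [h1, h2, h3]; ring
      · rw [if_neg (fun h => hn (Nat.odd_mul.1 h).2), if_neg hn, mul_zero]
    · rw [if_neg (fun h => hm (Nat.odd_mul.1 h).1), if_neg hm, zero_mul]

lemma ff_apply (κ : ℤ) (r : ℕ) (e : Bool) (n : ℕ) :
    ff κ r e n = if Odd n then Jr n r * Jr κ n * x4 e n else 0 := rfl

lemma ff_abs (κ : ℤ) (r : ℕ) (e : Bool) (n : ℕ) : |ff κ r e n| ≤ 1 := by
  rw [ff_apply]
  split_ifs
  · rw [abs_mul, abs_mul]
    have h1 := Jr_abs n r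
    have h2 := Jr_abs κ n
    have h3 := x4_abs e n
    calc |Jr n r| * |Jr κ n| * |x4 e n| ≤ 1 * 1 * 1 := by gcongr
      _ = 1 := by norm_num
  · simp

lemma ff_per (κ : ℤ) (r : ℕ) (e : Bool) :
    Function.Periodic (ff κ r e) (4 * κ.natAbs * r) := by
  intro n
  rw [ff_apply, ff_apply]
  have hodd : Odd (n + 4 * κ.natAbs * r) ↔ Odd n := by
    have : Even (4 * κ.natAbs * r) := ⟨2 * κ.natAbs * r, by ring⟩
    rw [Nat.odd_add]
    constructor
    · intro h; exact h.2 this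
    · intro h; exact ⟨fun _ => this, fun _ => h⟩
  by_cases hn : Odd n
  · rw [if_pos hn, if_pos (hodd.2 hn)]
    have h1 : Jr ((n + 4 * κ.natAbs * r : ℕ) : ℤ) r = Jr n r := by
      unfold Jr
      congr 1
      apply jacobiSym.mod_left'
      push_cast
      rw [Int.add_mul_emod_self_right]
    have h2 : Jr κ (n + 4 * κ.natAbs * r) = Jr κ n := by
      unfold Jr
      congr 1
      rw [jacobiSym.mod_right κ (hodd.2 hn), jacobiSym.mod_right κ hn]
      congr 1
      exact Nat.add_mul_mod_self_left _ _ _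
    have h3 : x4 e (n + 4 * κ.natAbs * r) = x4 e n := by
      unfold x4
      have : ((n + 4 * κ.natAbs * r : ℕ) : ZMod 4) = (n : ZMod 4) := by
        push_cast
        rw [show (4 : ZMod 4) = 0 from rfl]
        ring
      rw [this]
    rw [h1, h2, h3]
  · rw [if_neg hn, if_neg (fun h => hn (hodd.1 h))]

lemma sum_period {f : ℕ → ℝ} {q n0 : ℕ} (hq : q ≠ 0) (hper : Function.Periodic f q)
    (hc : Nat.Coprime n0 q) (h : ∀ n, f (n0 * n) = - f n) : ∑ n ∈ range q, f n = 0 := by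
  have : NeZero q := ⟨hq⟩
  have e1 : ∑ x ∈ range q, f x = ∑ x : ZMod q, f x.val := by
    rw [← Fin.sum_univ_eq_sum_range (fun x => f x)]
    apply (Fintype.sum_equiv (ZMod.finEquiv q).toEquiv _ _ _)
    intro x
    congr 1
    cases q with
    | zero => exact absurd rfl hq
    | succ N => rfl
  obtain ⟨u, hu⟩ := (ZMod.isUnit_iff_coprime n0 q).2 hc
  have e2 : ∑ x : ZMod q, f x.val = ∑ x : ZMod q, f (((u : ZMod q) * x).val) := by
    exact (Fintype.sum_equiv (Units.mulLeft u) _ _ (fun x => by simp)).symm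
  have e3 : ∀ x : ZMod q, f (((u : ZMod q) * x).val) = - f x.val := by
    intro x
    rw [← h]
    have h5 : (((u : ZMod q) * x).val : ℕ) = (n0 * x.val) % q := by
      rw [hu, ← ZMod.val_natCast, Nat.cast_mul, ZMod.natCast_zmod_val]
    rw [h5, hper.map_mod_nat]
  simp_rw [e3, sum_neg_distrib] at e2
  rw [e1]
  linarith

lemma ff_exists (κ : ℤ) (z r : ℕ) (e : Bool) (hκ : κ ≠ 0) (hz : 2 ≤ z) (hκz : κ.natAbs ≤ z)
    (hr1 : 1 < r) (hr : Squarefree r) (hrp : ∀ p : ℕ, p.Prime → p ∣ r → z < p) :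
    ∃ n0 : ℕ, Nat.Coprime n0 (4 * κ.natAbs * r) ∧ ff κ r e n0 = -1 := by
  obtain ⟨p, hp, hpr⟩ := Nat.exists_prime_and_dvd hr1.ne'
  obtain ⟨m, hm⟩ := hpr
  have hzp := hrp p hp ⟨m, hm⟩
  have hfp : Fact p.Prime := ⟨hp⟩
  have hm0 : m ≠ 0 := by rintro rfl; omega
  have hcpm : Nat.Coprime p m := by
    rw [hm] at hr
    exact Nat.coprime_of_squarefree_mul hr
  have hκ0 : 0 < κ.natAbs := Int.natAbs_pos.2 hκ
  have hcp4 : Nat.Coprime p 4 := by
    rw [Nat.Prime.coprime_iff_not_dvd hp]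
    intro h
    have := (Nat.Prime.dvd_of_dvd_pow hp (show p ∣ 2 ^ 2 from h))
    have := Nat.le_of_dvd (by norm_num) this
    omega
  have hcpκ : Nat.Coprime p κ.natAbs := by
    rw [Nat.Prime.coprime_iff_not_dvd hp]
    intro h
    have := Nat.le_of_dvd hκ0 h
    omega
  have hcop : Nat.Coprime p (4 * κ.natAbs * m) := (hcp4.mul_right hcpκ).mul_right hcpm
  obtain ⟨b, hb⟩ := FiniteField.exists_nonsquare (F := ZMod p)
    (by rw [ZMod.ringChar_zmod_n]; omega)
  obtain ⟨a, ha1, ha2⟩ := Nat.chineseRemainder hcop b.val 1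
  have h1 : jacobiSym a p = -1 := by
    rw [← jacobiSym.legendreSym.to_jacobiSym, legendreSym.eq_neg_one_iff]
    have : ((a : ℤ) : ZMod p) = b := by
      have := (ZMod.natCast_eq_natCast_iff a b.val p).2 ha1
      push_cast
      rw [this, ZMod.natCast_zmod_val]
    rwa [this]
  have ha4κ : a ≡ 1 [MOD 4 * κ.natAbs] := ha2.of_mul_right _
  have ham : a ≡ 1 [MOD m] := by
    have : a ≡ 1 [MOD m * (4 * κ.natAbs)] := by rw [mul_comm]; exact ha2
    exact this.of_mul_right _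
  have ha4 : a ≡ 1 [MOD 4] := ha4κ.of_mul_right _
  have haodd : Odd a := by
    have : a % 4 = 1 % 4 := ha4
    rw [Nat.odd_iff]
    omega
  have h2 : jacobiSym a m = 1 := by
    have : jacobiSym a m = jacobiSym (1 : ℤ) m := by
      apply jacobiSym.mod_left'
      exact_mod_cast ham
    rw [this, jacobiSym.one_left]
  have h3 : jacobiSym a r = -1 := by
    rw [hm, jacobiSym.mul_right' _ hp.ne_zero hm0, h1, h2]; norm_num
  have h4 : jacobiSym κ a = 1 := by
    rw [jacobiSym.mod_right κ haodd]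
    have : a % (4 * κ.natAbs) = 1 := by
      have h5 : a % (4 * κ.natAbs) = 1 % (4 * κ.natAbs) := ha4κ
      rw [h5]
      exact Nat.mod_eq_of_lt (by omega)
    rw [this, jacobiSym.one_right]
  have h5 : x4 e a = 1 := by
    unfold x4
    have : (a : ZMod 4) = 1 := by
      have := (ZMod.natCast_eq_natCast_iff a 1 4).2 ha4
      simpa using this
    rw [this]
    simp
  refine ⟨a, ?_, ?_⟩
  · have hap : Nat.Coprime a p := by
      by_contra hc
      have : jacobiSym a p = 0 := by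
        rw [jacobiSym.eq_zero_iff]
        refine ⟨hp.ne_zero, ?_⟩
        rw [Int.gcd_natCast_natCast]; exact hc
      rw [h1] at this
      norm_num at this
    have ha' : Nat.Coprime a (4 * κ.natAbs * m) := by
      have := ha2.gcd_eq
      unfold Nat.Coprime
      rw [this]; simp
    have : 4 * κ.natAbs * r = p * (4 * κ.natAbs * m) := by rw [hm]; ring
    rw [this]
    exact hap.mul_right ha'
  · rw [ff_apply, if_pos haodd]
    unfold Jr
    rw [h3, h4, h5]
    norm_num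

theorem ub : Pool.Agent.W262.RK.UB := by
  intro κ z hκ hz hκz
  obtain ⟨C1, hC1⟩ := Pool.Agent.Helper256.KM.mertens_log
  obtain ⟨C2, hC2⟩ := Pool.Agent.Helper256.KM.mertens_inv
  have hC10 : 0 ≤ C1 := (abs_nonneg _).trans (hC1 1 le_rfl)
  have hκ0 : 0 < κ.natAbs := Int.natAbs_pos.2 hκ
  set K : ℝ := Real.log (4 * κ.natAbs) + 4 with hK
  have hlogκ : 0 ≤ Real.log (4 * κ.natAbs : ℝ) := by
    apply Real.log_nonneg
    have : (1 : ℝ) ≤ κ.natAbs := by exact_mod_cast hκ0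
    linarith
  have hK0 : 0 < K := by linarith
  have hl3 : 1 ≤ Real.log 3 := by
    rw [Real.le_log_iff_exp_le (by norm_num)]
    linarith [Real.exp_one_lt_d9]
  refine ⟨Real.log 2 + Real.log K + C2 + 2 + 2 * C1 + z, ?_⟩
  intro y r e hzy hr1 hr hrp
  have hy3 : 3 ≤ y := by omega
  have hr3 : 3 ≤ r := by
    obtain ⟨p, hp, hpr⟩ := Nat.exists_prime_and_dvd hr1.ne'
    have h1 := hrp p hp hpr
    have h2 := Nat.le_of_dvd (by omega) hpr
    omega
  have hLy : 1 ≤ Real.log y :=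
    hl3.trans (Real.log_le_log (by norm_num) (by exact_mod_cast hy3))
  have hLr : 1 ≤ Real.log r :=
    hl3.trans (Real.log_le_log (by norm_num) (by exact_mod_cast hr3))
  set s : ℝ := 1 / Real.log y with hs
  have hLy0 : 0 < Real.log y := by linarith
  have hs0 : 0 < s := by positivity
  have hs1 : s ≤ 1 := by rw [hs, div_le_one hLy0]; exact hLy
  set f := ff κ r e with hf
  set T : Finset Nat.Primes := Finset.subtype Nat.Prime (Icc 1 y) with hT
  have hconv : ∀ g : ℕ → ℝ, ∑ p ∈ T, g (p : ℕ) = ∑ p ∈ (Icc 1 y).filter Nat.Prime, g p := by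
    intro g
    exact Finset.sum_subtype_eq_sum_filter (s := Icc 1 y) (p := Nat.Prime) g
  obtain ⟨hsum, hEL⟩ := euler_lower f (ff_abs κ r e) s hs0 hs1 T
  obtain ⟨n0, hn0, hn01⟩ := ff_exists κ z r e hκ hz hκz hr1 hr hrp
  have hq0 : 1 ≤ 4 * κ.natAbs * r := by
    have : 0 < 4 * κ.natAbs * r := by positivity
    omega
  have hLb := L_bound hq0 (ff_abs κ r e) (ff_per κ r e)
    (sum_period (by omega) (ff_per κ r e) hn0 (fun n => by rw [map_mul, hn01]; ring)) s hs0 hsum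
  have hlogq : Real.log ((4 * κ.natAbs * r : ℕ) : ℝ) = Real.log (4 * κ.natAbs) + Real.log r := by
    push_cast
    rw [Real.log_mul (by positivity) (by positivity)]
  have hLK : ∑' n : ℕ, (n : ℝ) ^ (-(1 + s)) * f n ≤ K * Real.log r := by
    rw [hlogq] at hLb
    have : (Real.log (4 * κ.natAbs) + 3) * 1 ≤ (Real.log (4 * κ.natAbs) + 3) * Real.log r :=
      mul_le_mul_of_nonneg_left hLr (by linarith)
    rw [hK]
    linarith
  have h2s : 2 / s = 2 * Real.log y := by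
    rw [hs]; field_simp
  rw [h2s] at hEL
  have h1 : ∑ p ∈ T, (1 + f (p : ℕ)) * ((p : ℕ) : ℝ) ^ (-(1 + s)) ≤
      Real.log 2 + Real.log (Real.log y) + (Real.log K + Real.log (Real.log r)) := by
    have h2 := hEL.trans (mul_le_mul_of_nonneg_left hLK (by positivity))
    rw [← Real.log_mul (by positivity) (by linarith), ← Real.log_mul hK0.ne' (by linarith),
      ← Real.log_mul (by positivity) (by positivity)]
    rw [Real.le_log_iff_exp_le (by positivity)]
    exact h2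
  have h3 : ∑ p ∈ T, (1 + f (p : ℕ)) * ((p : ℕ) : ℝ) ^ (-(1 + s)) ≥
      ∑ p ∈ (Icc 1 y).filter Nat.Prime, ((1 : ℝ) / p + f p / p - 2 * s * (Real.log p / p)) := by
    rw [ge_iff_le, ← hconv (fun p => (1 : ℝ) / p + f p / p - 2 * s * (Real.log p / p))]
    refine sum_le_sum fun p _ => ?_
    have hp1 : (1 : ℝ) < ((p : ℕ) : ℝ) := by exact_mod_cast p.2.one_lt
    have hp0 : (0 : ℝ) < ((p : ℕ) : ℝ) := by linarith
    have hlp : 0 < Real.log ((p : ℕ) : ℝ) := Real.log_pos hp1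
    have h4 : ((p : ℕ) : ℝ) ^ (-(1 + s)) = ((p : ℕ) : ℝ) ^ (-s) / (p : ℕ) := by
      rw [show -(1 + s) = -s - 1 by ring, Real.rpow_sub hp0, Real.rpow_one]
    have h5 : 1 - s * Real.log ((p : ℕ) : ℝ) ≤ ((p : ℕ) : ℝ) ^ (-s) := by
      rw [Real.rpow_def_of_pos hp0]
      have := Real.add_one_le_exp (Real.log ((p : ℕ) : ℝ) * -s)
      linarith
    have h6 := abs_le.1 (ff_abs κ r e p)
    rw [← hf] at h6
    have h7 : (1 + f (p : ℕ)) * (1 - s * Real.log ((p : ℕ) : ℝ)) ≤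
        (1 + f (p : ℕ)) * ((p : ℕ) : ℝ) ^ (-s) := mul_le_mul_of_nonneg_left h5 (by linarith)
    have h8 : (1 + f (p : ℕ)) * (s * Real.log ((p : ℕ) : ℝ)) ≤ 2 * (s * Real.log ((p : ℕ) : ℝ)) :=
      mul_le_mul_of_nonneg_right (by linarith) (by positivity)
    have h9 : (1 + f (p : ℕ) - 2 * (s * Real.log ((p : ℕ) : ℝ))) ≤
        (1 + f (p : ℕ)) * ((p : ℕ) : ℝ) ^ (-s) := by linarith
    calc (1 : ℝ) / (p : ℕ) + f p / (p : ℕ) - 2 * s * (Real.log (p : ℕ) / (p : ℕ))
        = (1 + f (p : ℕ) - 2 * (s * Real.log ((p : ℕ) : ℝ))) / (p : ℕ) := by ring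
      _ ≤ ((1 + f (p : ℕ)) * ((p : ℕ) : ℝ) ^ (-s)) / (p : ℕ) :=
          div_le_div_of_nonneg_right h9 hp0.le
      _ = _ := by rw [h4]; ring
  rw [sum_sub_distrib, sum_add_distrib, ← mul_sum] at h3
  have h10 := (abs_le.1 (hC2 y hy3)).1
  have h11 := (abs_le.1 (hC1 y (by omega))).2
  have h12 : 2 * s * ∑ p ∈ (Icc 1 y).filter Nat.Prime, Real.log p / p ≤ 2 + 2 * C1 := by
    have h13 : 2 * s * ∑ p ∈ (Icc 1 y).filter Nat.Prime, Real.log p / p ≤
        2 * s * (Real.log y + C1) := mul_le_mul_of_nonneg_left (by linarith) (by positivity)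
    have h14 : 2 * s * (Real.log y + C1) = 2 + 2 * (s * C1) := by
      rw [hs]; field_simp
    have h15 : s * C1 ≤ 1 * C1 := mul_le_mul_of_nonneg_right hs1 hC10
    linarith
  have hmain : ∑ p ∈ (Icc 1 y).filter Nat.Prime, f p / (p : ℝ) ≤
      Real.log 2 + Real.log K + Real.log (Real.log r) + C2 + 2 + 2 * C1 := by
    linarith
  -- the small primes
  have hsplit : ∑ p ∈ (Icc 1 y).filter Nat.Prime, f p / (p : ℝ) =
      ∑ p ∈ (Icc 1 z).filter Nat.Prime, f p / (p : ℝ) + ∑ p ∈ PS z y, f p / (p : ℝ) := by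
    rw [← sum_union]
    · refine sum_congr ?_ fun _ _ => rfl
      ext p
      simp only [PS, mem_union, mem_filter, mem_Icc, mem_Ioc]
      constructor
      · rintro ⟨⟨h1, h2⟩, h3⟩
        rcases Nat.lt_or_ge z p with h4 | h4
        · right; exact ⟨⟨h4, h2⟩, h3⟩
        · left; exact ⟨⟨h1, h4⟩, h3⟩
      · rintro (⟨⟨h1, h2⟩, h3⟩ | ⟨⟨h1, h2⟩, h3⟩)
        · exact ⟨⟨h1, by omega⟩, h3⟩
        · exact ⟨⟨by omega, h2⟩, h3⟩
    · rw [Finset.disjoint_left]
      intro p h1 h2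
      simp only [PS, mem_filter, mem_Icc, mem_Ioc] at h1 h2
      omega
  have hsmall : -(z : ℝ) ≤ ∑ p ∈ (Icc 1 z).filter Nat.Prime, f p / (p : ℝ) := by
    have h16 : ∀ p ∈ (Icc 1 z).filter Nat.Prime, (-1 : ℝ) ≤ f p / (p : ℝ) := by
      intro p hp
      rw [mem_filter, mem_Icc] at hp
      have hp0 : (1 : ℝ) ≤ p := by exact_mod_cast hp.1.1
      rw [le_div_iff₀ (by linarith)]
      have := (abs_le.1 (ff_abs κ r e p)).1
      rw [← hf] at this
      linarith
    have h17 := Finset.card_nsmul_le_sum _ _ _ h16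
    have h18 : ((Icc 1 z).filter Nat.Prime).card ≤ z := by
      refine (card_filter_le _ _).trans ?_
      simp
    have h19 : (((Icc 1 z).filter Nat.Prime).card : ℝ) ≤ z := by exact_mod_cast h18
    rw [nsmul_eq_mul] at h17
    linarith
  have hfin : ∑ p ∈ PS z y, Jr p r * Jr κ p * x4 e p / (p : ℝ) = ∑ p ∈ PS z y, f p / (p : ℝ) := by
    refine sum_congr rfl fun p hp => ?_
    simp only [PS, mem_filter, mem_Ioc] at hp
    have hodd : Odd p := hp.2.odd_of_ne_two (by omega)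
    rw [hf, ff_apply, if_pos hodd]
  rw [hfin]
  linarith

end Pool.Agent.W586.RK.UB
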